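import Pool.Agent.Helper56.RZ.GoalsD

/-!
Project RZ3 (MP_f32c9c_an), packet GT: Taylor expansion, uniform in parameters.
-/

set_option autoImplicit false

namespace Pool.Agent.Helper36.RZ

open Set Filter Topology
open scoped ContDiff

section

variable {W : Type} [NormedAddCommGroup W] [NormedSpace ℝ W]

/-- derivative in the first variable -/
noncomputable def d1 (f : ℝ × ℝ × W → ℝ) (x : ℝ × ℝ × W) : ℝ := fderiv ℝ f x (1, 0)

/-- derivative in the second variable -/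
noncomputable def d2 (f : ℝ × ℝ × W → ℝ) (x : ℝ × ℝ × W) : ℝ := fderiv ℝ f x (0, (1, 0))

theorem smooth_dir {f : ℝ × ℝ × W → ℝ} {O : Set (ℝ × ℝ × W)} (hO : IsOpen O)
    (hf : ContDiffOn ℝ ∞ f O) (v : ℝ × ℝ × W) : ContDiffOn ℝ ∞ (fun x => fderiv ℝ f x v) O :=
  (hf.fderiv_of_isOpen hO (m := ∞) (by simp)).clm_apply contDiffOn_const

theorem hasDeriv1 {f : ℝ × ℝ × W → ℝ} {O : Set (ℝ × ℝ × W)} (hO : IsOpen O)
    (hf : ContDiffOn ℝ ∞ f O) {ρ t : ℝ} {w : W} (hx : (ρ, t, w) ∈ O) :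
    HasDerivAt (fun s : ℝ => f (s, t, w)) (d1 f (ρ, t, w)) ρ := by
  have h1 : DifferentiableAt ℝ f (ρ, t, w) :=
    (hf.differentiableOn (by simp)).differentiableAt (hO.mem_nhds hx)
  have h2 : HasDerivAt (fun s : ℝ => ((s, t, w) : ℝ × ℝ × W)) (1, 0) ρ :=
    (hasDerivAt_id ρ).prodMk (hasDerivAt_const ρ ((t, w) : ℝ × W))
  exact h1.hasFDerivAt.comp_hasDerivAt ρ h2

theorem hasDeriv2 {f : ℝ × ℝ × W → ℝ} {O : Set (ℝ × ℝ × W)} (hO : IsOpen O)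
    (hf : ContDiffOn ℝ ∞ f O) {ρ t : ℝ} {w : W} (hx : (ρ, t, w) ∈ O) :
    HasDerivAt (fun s : ℝ => f (ρ, s, w)) (d2 f (ρ, t, w)) t := by
  have h1 : DifferentiableAt ℝ f (ρ, t, w) :=
    (hf.differentiableOn (by simp)).differentiableAt (hO.mem_nhds hx)
  have h2 : HasDerivAt (fun s : ℝ => ((ρ, s, w) : ℝ × ℝ × W)) (0, (1, 0)) t :=
    (hasDerivAt_const t ρ).prodMk ((hasDerivAt_id t).prodMk (hasDerivAt_const t w))
  exact h1.hasFDerivAt.comp_hasDerivAt t h2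

/-- integration of a bound -/
theorem int_bound (h h' : ℝ → ℝ) (B r : ℝ) (m : ℕ) (h0 : h 0 = 0)
    (hd : ∀ s : ℝ, |s| ≤ |r| → HasDerivAt h (h' s) s) (hB : 0 ≤ B)
    (hb : ∀ s : ℝ, |s| ≤ |r| → |h' s| ≤ B * |s| ^ m) : |h r| ≤ B * |r| ^ (m + 1) := by
  have h1 : ‖h r - h 0‖ ≤ (B * |r| ^ m) * ‖r - 0‖ := by
    refine Convex.norm_image_sub_le_of_norm_hasDerivWithin_le (f := h) (f' := h')
      (s := Icc (-|r|) |r|) (C := B * |r| ^ m) (fun s hs => ?_) (fun s hs => ?_)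
      (convex_Icc _ _) ?_ ?_
    · exact (hd s (abs_le.mpr ⟨hs.1, hs.2⟩)).hasDerivWithinAt
    · have hs' : |s| ≤ |r| := abs_le.mpr ⟨hs.1, hs.2⟩
      rw [Real.norm_eq_abs]
      refine (hb s hs').trans (mul_le_mul_of_nonneg_left ?_ hB)
      exact pow_le_pow_left₀ (abs_nonneg s) hs' m
    · exact ⟨by linarith [abs_nonneg r], abs_nonneg r⟩
    · exact ⟨neg_abs_le r, le_abs_self r⟩
  rw [h0, sub_zero, sub_zero, Real.norm_eq_abs, Real.norm_eq_abs] at h1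
  calc |h r| ≤ B * |r| ^ m * |r| := h1
    _ = B * |r| ^ (m + 1) := by ring

/-- the data: a smooth function on a neighbourhood of the box -/
structure Box (O : Set (ℝ × ℝ × W)) (Kw : Set W) (t0 : ℝ) : Prop where
  op : IsOpen O
  cp : IsCompact Kw
  tpos : 0 < t0
  mem : ∀ (ρ t : ℝ) (w : W), |ρ| ≤ 1 → |t| ≤ t0 → w ∈ Kw → (ρ, t, w) ∈ O

variable {O : Set (ℝ × ℝ × W)} {Kw : Set W} {t0 : ℝ}

theorem bounded (hbx : Box O Kw t0) (f : ℝ × ℝ × W → ℝ) (hf : ContDiffOn ℝ ∞ f O) :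
    ∃ B : ℝ, 0 ≤ B ∧ ∀ w ∈ Kw, ∀ ρ t : ℝ, |ρ| ≤ 1 → |t| ≤ t0 → |f (ρ, t, w)| ≤ B := by
  have hK : IsCompact (Icc (-1 : ℝ) 1 ×ˢ (Icc (-t0) t0 ×ˢ Kw)) :=
    isCompact_Icc.prod (isCompact_Icc.prod hbx.cp)
  have hsub : (Icc (-1 : ℝ) 1 ×ˢ (Icc (-t0) t0 ×ˢ Kw)) ⊆ O := by
    rintro ⟨ρ, t, w⟩ ⟨h1, h2, h3⟩
    exact hbx.mem ρ t w (abs_le.mpr h1) (abs_le.mpr h2) h3
  obtain ⟨C, hC⟩ := hK.exists_bound_of_continuousOn (hf.continuousOn.mono hsub)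
  refine ⟨max C 0, le_max_right _ _, fun w hw ρ t hρ ht => ?_⟩
  exact (hC (ρ, t, w) ⟨abs_le.mp hρ, abs_le.mp ht, hw⟩).trans (le_max_left _ _)

/-- expansion in the first variable at `t = 0` -/
theorem exp1 (hbx : Box O Kw t0) (m : ℕ) : ∀ f : ℝ × ℝ × W → ℝ, ContDiffOn ℝ ∞ f O →
    ∃ (B : ℝ) (a : ℕ → W → ℝ), 0 ≤ B ∧ (∀ w, 1 ≤ m → a 0 w = f (0, 0, w)) ∧
      ∀ w ∈ Kw, ∀ ρ : ℝ, |ρ| ≤ 1 →
      |f (ρ, 0, w) - ∑ j ∈ Finset.range m, ρ ^ j * a j w| ≤ B * |ρ| ^ m := by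
  induction m with
  | zero =>
    intro f hf
    obtain ⟨B, hB0, hB⟩ := bounded hbx f hf
    refine ⟨B, fun _ _ => 0, hB0, fun w hw => absurd hw (by norm_num), fun w hw ρ hρ => ?_⟩
    have := hB w hw ρ 0 hρ (by rw [abs_zero]; exact hbx.tpos.le)
    simpa using this
  | succ m ih =>
    intro f hf
    obtain ⟨B, a, hB0, -, hB⟩ := ih (d1 f) (smooth_dir hbx.op hf (1, 0))
    refine ⟨B, fun j w => if j = 0 then f (0, 0, w) else a (j - 1) w / j, hB0,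
      fun w _ => by simp, fun w hw ρ hρ => ?_⟩
    have key := int_bound
      (fun s => f (s, 0, w) - f (0, 0, w) -
        ∑ j ∈ Finset.range m, s ^ (j + 1) * (a j w / ((j + 1 : ℕ) : ℝ)))
      (fun s => d1 f (s, 0, w) - ∑ j ∈ Finset.range m, s ^ j * a j w) B ρ m ?_ ?_ hB0 ?_
    · have h1 : f (ρ, 0, w) - ∑ j ∈ Finset.range (m + 1),
          ρ ^ j * (if j = 0 then f (0, 0, w) else a (j - 1) w / j) =
          f (ρ, 0, w) - f (0, 0, w) -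
            ∑ j ∈ Finset.range m, ρ ^ (j + 1) * (a j w / ((j + 1 : ℕ) : ℝ)) := by
        rw [Finset.sum_range_succ']
        have h2 : ∀ j ∈ Finset.range m, ρ ^ (j + 1) *
            (if j + 1 = 0 then f (0, 0, w) else a (j + 1 - 1) w / ((j + 1 : ℕ) : ℝ)) =
            ρ ^ (j + 1) * (a j w / ((j + 1 : ℕ) : ℝ)) := by
          intro j _
          rw [if_neg (Nat.succ_ne_zero j), Nat.add_sub_cancel]
        rw [Finset.sum_congr rfl h2, if_pos rfl]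
        ring
      rw [h1]
      exact key
    · have : ∀ j ∈ Finset.range m, (0 : ℝ) ^ (j + 1) * (a j w / ((j + 1 : ℕ) : ℝ)) = 0 := by
        intro j _
        rw [zero_pow (Nat.succ_ne_zero j), zero_mul]
      simp only [Finset.sum_eq_zero this]
      ring
    · intro s hs
      have hs1 : |s| ≤ 1 := hs.trans hρ
      have h3 := hasDeriv1 hbx.op hf (hbx.mem s 0 w hs1 (by rw [abs_zero]; exact hbx.tpos.le) hw)
      have h4 : HasDerivAt (fun s : ℝ => ∑ j ∈ Finset.range m,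
          s ^ (j + 1) * (a j w / ((j + 1 : ℕ) : ℝ))) (∑ j ∈ Finset.range m, s ^ j * a j w) s := by
        refine HasDerivAt.fun_sum fun j _ => ?_
        have h5 := (hasDerivAt_pow (j + 1) s).mul_const (a j w / ((j + 1 : ℕ) : ℝ))
        have h6 : ((j + 1 : ℕ) : ℝ) * s ^ (j + 1 - 1) * (a j w / ((j + 1 : ℕ) : ℝ)) =
            s ^ j * a j w := by
          have : ((j + 1 : ℕ) : ℝ) ≠ 0 := Nat.cast_ne_zero.mpr (Nat.succ_ne_zero j)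
          rw [Nat.add_sub_cancel]
          field_simp
        rw [h6] at h5
        exact h5
      exact (h3.sub_const _).sub h4
    · intro s hs
      exact hB w hw s (hs.trans hρ)

/-- first order in `t` -/
theorem t_one (hbx : Box O Kw t0) (f : ℝ × ℝ × W → ℝ) (hf : ContDiffOn ℝ ∞ f O) :
    ∃ B : ℝ, 0 ≤ B ∧ ∀ w ∈ Kw, ∀ ρ t : ℝ, |ρ| ≤ 1 → |t| ≤ t0 →
      |f (ρ, t, w) - f (ρ, 0, w)| ≤ B * |t| ^ 1 := by
  obtain ⟨B, hB0, hB⟩ := bounded hbx (d2 f) (smooth_dir hbx.op hf (0, (1, 0)))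
  refine ⟨B, hB0, fun w hw ρ t hρ ht => ?_⟩
  refine int_bound (fun s => f (ρ, s, w) - f (ρ, 0, w)) (fun s => d2 f (ρ, s, w)) B t 0
    (sub_self _) ?_ hB0 ?_
  · intro s hs
    exact (hasDeriv2 hbx.op hf (hbx.mem ρ s w hρ (hs.trans ht) hw)).sub_const _
  · intro s hs
    rw [pow_zero, mul_one]
    exact hB w hw ρ s hρ (hs.trans ht)

/-- second order in `t` -/
theorem t_two (hbx : Box O Kw t0) (f : ℝ × ℝ × W → ℝ) (hf : ContDiffOn ℝ ∞ f O) :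
    ∃ B : ℝ, 0 ≤ B ∧ ∀ w ∈ Kw, ∀ ρ t : ℝ, |ρ| ≤ 1 → |t| ≤ t0 →
      |f (ρ, t, w) - f (ρ, 0, w) - t * d2 f (ρ, 0, w)| ≤ B * |t| ^ 2 := by
  obtain ⟨B, hB0, hB⟩ := t_one hbx (d2 f) (smooth_dir hbx.op hf (0, (1, 0)))
  refine ⟨B, hB0, fun w hw ρ t hρ ht => ?_⟩
  refine int_bound (fun s => f (ρ, s, w) - f (ρ, 0, w) - s * d2 f (ρ, 0, w))
    (fun s => d2 f (ρ, s, w) - d2 f (ρ, 0, w)) B t 1 (by ring) ?_ hB0 ?_
  · intro s hs
    have h1 := (hasDeriv2 hbx.op hf (hbx.mem ρ s w hρ (hs.trans ht) hw)).sub_const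
      (f (ρ, 0, w))
    have h2 := (hasDerivAt_id s).mul_const (d2 f (ρ, 0, w))
    rw [one_mul] at h2
    exact h1.sub h2
  · intro s hs
    exact hB w hw ρ s hρ (hs.trans ht)

/-- third order in `t` -/
theorem t_three (hbx : Box O Kw t0) (f : ℝ × ℝ × W → ℝ) (hf : ContDiffOn ℝ ∞ f O) :
    ∃ B : ℝ, 0 ≤ B ∧ ∀ w ∈ Kw, ∀ ρ t : ℝ, |ρ| ≤ 1 → |t| ≤ t0 →
      |f (ρ, t, w) - f (ρ, 0, w) - t * d2 f (ρ, 0, w) - t ^ 2 * (d2 (d2 f) (ρ, 0, w) / 2)| ≤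
        B * |t| ^ 3 := by
  obtain ⟨B, hB0, hB⟩ := t_two hbx (d2 f) (smooth_dir hbx.op hf (0, (1, 0)))
  refine ⟨B, hB0, fun w hw ρ t hρ ht => ?_⟩
  refine int_bound (fun s => f (ρ, s, w) - f (ρ, 0, w) - s * d2 f (ρ, 0, w) -
      s ^ 2 * (d2 (d2 f) (ρ, 0, w) / 2))
    (fun s => d2 f (ρ, s, w) - d2 f (ρ, 0, w) - s * d2 (d2 f) (ρ, 0, w)) B t 2 (by ring) ?_ hB0 ?_
  · intro s hs
    have h1 := (hasDeriv2 hbx.op hf (hbx.mem ρ s w hρ (hs.trans ht) hw)).sub_const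
      (f (ρ, 0, w))
    have h2 := (hasDerivAt_id s).mul_const (d2 f (ρ, 0, w))
    rw [one_mul] at h2
    have h3 := (hasDerivAt_pow 2 s).mul_const (d2 (d2 f) (ρ, 0, w) / 2)
    have h4 : ((2 : ℕ) : ℝ) * s ^ (2 - 1) * (d2 (d2 f) (ρ, 0, w) / 2) =
        s * d2 (d2 f) (ρ, 0, w) := by
      norm_num
      ring
    rw [h4] at h3
    exact (h1.sub h2).sub h3
  · intro s hs
    exact hB w hw ρ s hρ (hs.trans ht)

end

/-- PACKET GT. -/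
theorem gt : Pool.Agent.Helper56.RZ.StmtGT := by
  intro W _ _ k O Kw t0 m hO hk hKw ht0 hm hmem
  have hbx : Box O Kw t0 := ⟨hO, hKw, ht0, hmem⟩
  have hk2 : ContDiffOn ℝ ∞ (d2 k) O := smooth_dir hO hk (0, (1, 0))
  have hk22 : ContDiffOn ℝ ∞ (d2 (d2 k)) O := smooth_dir hO hk2 (0, (1, 0))
  obtain ⟨B1, α, hB1, -, hα⟩ := exp1 hbx m k hk
  obtain ⟨B2, β, hB2, -, hβ⟩ := exp1 hbx m (d2 k) hk2
  obtain ⟨B3, γ, hB3, hγ0, hγ⟩ := exp1 hbx 1 (d2 (d2 k)) hk22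
  obtain ⟨B4, hB4, hT⟩ := t_three hbx k hk
  refine ⟨B1 + t0 * B2 + B3 + B4, α, β, fun w => d2 (d2 k) (0, 0, w) / 2, by positivity, ?_, ?_⟩
  · have h1 : ContinuousOn (fun w : W => d2 (d2 k) (0, 0, w)) Kw := by
      refine hk22.continuousOn.comp (t := O)
        (f := fun w : W => ((0 : ℝ), (0 : ℝ), w)) (by fun_prop) ?_
      intro w hw
      exact hmem 0 0 w (by rw [abs_zero]; norm_num) (by rw [abs_zero]; exact ht0.le) hw
    exact h1.div_const 2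
  · intro w hw ρ t hρ ht
    have e1 := hα w hw ρ hρ
    have e2 := hβ w hw ρ hρ
    have e3 := hγ w hw ρ hρ
    have e4 := hT w hw ρ t hρ ht
    rw [Finset.sum_range_one, pow_zero, one_mul, hγ0 w le_rfl, pow_one] at e3
    have hsum : ∑ j ∈ Finset.range m, ρ ^ j * (α j w + t * β j w) =
        ∑ j ∈ Finset.range m, ρ ^ j * α j w + t * ∑ j ∈ Finset.range m, ρ ^ j * β j w := by
      rw [Finset.mul_sum, ← Finset.sum_add_distrib]
      exact Finset.sum_congr rfl fun j _ => by ring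
    rw [hsum]
    have hρm : 0 ≤ |ρ| ^ m := by positivity
    have f2 : |t * (d2 k (ρ, 0, w) - ∑ j ∈ Finset.range m, ρ ^ j * β j w)| ≤
        t0 * B2 * |ρ| ^ m := by
      rw [abs_mul, mul_assoc]
      exact mul_le_mul ht e2 (abs_nonneg _) ht0.le
    have f3 : |t ^ 2 * ((d2 (d2 k) (ρ, 0, w) - d2 (d2 k) (0, 0, w)) / 2)| ≤
        B3 * (|ρ| * t ^ 2) := by
      rw [abs_mul, abs_of_nonneg (sq_nonneg t), abs_div, abs_two]
      have h7 : |d2 (d2 k) (ρ, 0, w) - d2 (d2 k) (0, 0, w)| / 2 ≤ B3 * |ρ| := by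
        have h8 := abs_nonneg (d2 (d2 k) (ρ, 0, w) - d2 (d2 k) (0, 0, w))
        linarith
      calc t ^ 2 * (|d2 (d2 k) (ρ, 0, w) - d2 (d2 k) (0, 0, w)| / 2)
          ≤ t ^ 2 * (B3 * |ρ|) := mul_le_mul_of_nonneg_left h7 (sq_nonneg t)
        _ = B3 * (|ρ| * t ^ 2) := by ring
    have hsplit : k (ρ, t, w) - (∑ j ∈ Finset.range m, ρ ^ j * α j w +
        t * ∑ j ∈ Finset.range m, ρ ^ j * β j w) - d2 (d2 k) (0, 0, w) / 2 * t ^ 2 =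
        (k (ρ, 0, w) - ∑ j ∈ Finset.range m, ρ ^ j * α j w) +
        t * (d2 k (ρ, 0, w) - ∑ j ∈ Finset.range m, ρ ^ j * β j w) +
        t ^ 2 * ((d2 (d2 k) (ρ, 0, w) - d2 (d2 k) (0, 0, w)) / 2) +
        (k (ρ, t, w) - k (ρ, 0, w) - t * d2 k (ρ, 0, w) -
          t ^ 2 * (d2 (d2 k) (ρ, 0, w) / 2)) := by ring
    rw [hsplit]
    have g1 : 0 ≤ |ρ| * t ^ 2 := by positivity
    have g2 : 0 ≤ |t| ^ 3 := by positivity
    refine (abs_add_le _ _).trans ?_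
    refine (add_le_add_left (abs_add_le _ _) _).trans ?_
    refine (add_le_add_left (add_le_add_left (abs_add_le _ _) _) _).trans ?_
    have i1 : B1 * |ρ| ^ m + t0 * B2 * |ρ| ^ m + B3 * (|ρ| * t ^ 2) + B4 * |t| ^ 3 ≤
        (B1 + t0 * B2 + B3 + B4) * (|ρ| ^ m + |ρ| * t ^ 2 + |t| ^ 3) := by
      have j1 : 0 ≤ B1 * (|ρ| * t ^ 2 + |t| ^ 3) := by positivity
      have j2 : 0 ≤ t0 * B2 * (|ρ| * t ^ 2 + |t| ^ 3) := by positivity
      have j3 : 0 ≤ B3 * (|ρ| ^ m + |t| ^ 3) := by positivity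
      have j4 : 0 ≤ B4 * (|ρ| ^ m + |ρ| * t ^ 2) := by positivity
      nlinarith
    linarith

end Pool.Agent.Helper36.RZ
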