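import Pool.Agent.Helper56.RZ.GoalsA

/-!
# MP_f32c9c_an, project RZ, packet LD: the logarithm of a determinant near the identity
-/

set_option autoImplicit false

open Set Filter Topology

open scoped ContDiff

namespace Pool.Agent.Helper36.RZ

open Pool.Agent.Helper56.RZ

/-- the standard basis -/
noncomputable def bas (K : ℕ) : Module.Basis (Fin K) ℝ (E K) :=
  (EuclideanSpace.basisFun (Fin K) ℝ).toBasis

theorem det_eq {K : ℕ} (Z : End K) :
    LinearMap.det ((1 + Z : End K) : E K →ₗ[ℝ] E K) =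
      ∑ σ : Equiv.Perm (Fin K), ((Equiv.Perm.sign σ : ℤ) : ℝ) *
        ∏ i, ((1 + Z : End K) (bas K i)) (σ i) := by
  rw [← LinearMap.det_toMatrix (bas K), Matrix.det_apply']
  refine Finset.sum_congr rfl fun σ _ => ?_
  congr 1
  refine Finset.prod_congr rfl fun i _ => ?_
  rw [LinearMap.toMatrix_apply]
  simp [bas]

theorem det_smooth (K : ℕ) :
    ContDiff ℝ 2 fun Z : End K => LinearMap.det ((1 + Z : End K) : E K →ₗ[ℝ] E K) := by
  have h1 : (fun Z : End K => LinearMap.det ((1 + Z : End K) : E K →ₗ[ℝ] E K)) =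
      fun Z => ∑ σ : Equiv.Perm (Fin K), ((Equiv.Perm.sign σ : ℤ) : ℝ) *
        ∏ i, ((1 + Z : End K) (bas K i)) (σ i) := funext det_eq
  rw [h1]
  refine ContDiff.sum fun σ _ => contDiff_const.mul (contDiff_prod fun i _ => ?_)
  have h2 : ContDiff ℝ 2 fun Z : End K => (1 + Z : End K) (bas K i) :=
    (contDiff_const.add contDiff_id).clm_apply contDiff_const
  exact (contDiff_euclidean.1 h2) (σ i)

theorem det_deriv {K : ℕ} (Z : End K) :
    HasDerivAt (fun t : ℝ => LinearMap.det ((1 + t • Z : End K) : E K →ₗ[ℝ] E K))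
      (LinearMap.trace ℝ (E K) (Z : E K →ₗ[ℝ] E K)) 0 := by
  set A := LinearMap.toMatrix (bas K) (bas K) (Z : E K →ₗ[ℝ] E K) with hA
  have h1 : ∀ t : ℝ, LinearMap.det ((1 + t • Z : End K) : E K →ₗ[ℝ] E K) =
      Matrix.det (1 + t • A) := by
    intro t
    rw [← LinearMap.det_toMatrix (bas K)]
    congr 1
    have h2 : ((1 + t • Z : End K) : E K →ₗ[ℝ] E K) =
        LinearMap.id + t • (Z : E K →ₗ[ℝ] E K) := rfl
    rw [h2, map_add, map_smul, LinearMap.toMatrix_id]
  have h3 : LinearMap.trace ℝ (E K) (Z : E K →ₗ[ℝ] E K) = Matrix.trace A :=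
    LinearMap.trace_eq_matrix_trace ℝ (bas K) _
  have h4 : (fun t : ℝ => LinearMap.det ((1 + t • Z : End K) : E K →ₗ[ℝ] E K)) =
      fun t => 1 + Matrix.trace A * t +
        (Matrix.det (1 + (Polynomial.X : Polynomial ℝ) •
          A.map Polynomial.C)).divX.divX.eval t * t ^ 2 := by
    funext t
    rw [h1 t, Matrix.det_one_add_smul]
  rw [h4, h3]
  set p := (Matrix.det (1 + (Polynomial.X : Polynomial ℝ) • A.map Polynomial.C)).divX.divX with hp
  have h5 : HasDerivAt (fun t : ℝ => 1 + Matrix.trace A * t + p.eval t * t ^ 2)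
      (0 + Matrix.trace A * 1 + (p.derivative.eval 0 * 0 ^ 2 + p.eval 0 * (2 * 0 ^ (2 - 1) * 1)))
      0 := by
    refine HasDerivAt.add (HasDerivAt.add (hasDerivAt_const _ _) ?_) ?_
    · exact (hasDerivAt_id (0 : ℝ)).const_mul _
    · exact (p.hasDerivAt 0).mul ((hasDerivAt_id (0 : ℝ)).pow 2)
  convert h5 using 1
  ring

theorem ld : StmtLD := by
  intro K
  set F : End K → ℝ := fun Z =>
    Real.log (LinearMap.det ((1 + Z : End K) : E K →ₗ[ℝ] E K)) with hF
  have hdet0 : LinearMap.det ((1 + (0 : End K) : End K) : E K →ₗ[ℝ] E K) = 1 := by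
    rw [add_zero]
    exact LinearMap.det_id
  have hsm : ContDiffAt ℝ 2 F 0 := by
    refine ContDiffAt.log ?_ ?_
    · exact (det_smooth K).contDiffAt
    · rw [hdet0]
      exact one_ne_zero
  obtain ⟨F', ⟨u, hu, hd⟩, hF'⟩ :=
    (contDiffAt_succ_iff_hasFDerivAt (n := 1)).1 (by exact_mod_cast hsm)
  obtain ⟨L, v, hv, hL⟩ := ContDiffAt.exists_lipschitzOnWith (𝕂 := ℝ) (by exact_mod_cast hF')
  obtain ⟨δ, hδ, hb⟩ := Metric.nhds_basis_closedBall.mem_iff.1 (Filter.inter_mem hu hv)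
  have h0 : (0 : End K) ∈ u ∩ v := hb (Metric.mem_closedBall_self hδ.le)
  have htr : ∀ Z : End K, F' 0 Z = LinearMap.trace ℝ (E K) (Z : E K →ₗ[ℝ] E K) := by
    intro Z
    have h1 : HasDerivAt (fun t : ℝ => F (t • Z)) (F' 0 Z) 0 := by
      have h2 : HasDerivAt (fun t : ℝ => t • Z) ((1 : ℝ) • Z) 0 :=
        (hasDerivAt_id (0 : ℝ)).smul_const Z
      have h3 : HasFDerivAt F (F' 0) ((0 : ℝ) • Z) := by
        have hz : (0 : ℝ) • Z = 0 := zero_smul ℝ Z
        rw [hz]
        exact hd 0 h0.1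
      have h4 := h3.comp_hasDerivAt (0 : ℝ) h2
      rwa [one_smul] at h4
    have h5 : HasDerivAt (fun t : ℝ => F (t • Z))
        (LinearMap.trace ℝ (E K) (Z : E K →ₗ[ℝ] E K) / 1) 0 := by
      have h6 := det_deriv Z
      have h7 : LinearMap.det ((1 + (0 : ℝ) • Z : End K) : E K →ₗ[ℝ] E K) = 1 := by
        have hz : (0 : ℝ) • Z = 0 := zero_smul ℝ Z
        rw [hz]
        exact hdet0
      have h8 := h6.log (by rw [h7]; exact one_ne_zero)
      rw [h7] at h8
      exact h8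
    rw [div_one] at h5
    exact h1.unique h5
  refine ⟨L, δ, hδ, fun Z hZ => ?_⟩
  rw [Real.log_abs]
  have hsub : ∀ Y ∈ Metric.closedBall (0 : End K) ‖Z‖, Y ∈ u ∩ v := fun Y hY =>
    hb (Metric.closedBall_subset_closedBall hZ hY)
  have key := (convex_closedBall (0 : End K) ‖Z‖).norm_image_sub_le_of_norm_hasFDerivWithin_le'
    (f := F) (f' := F') (φ := F' 0) (C := L * ‖Z‖) (x := 0) (y := Z)
    (fun Y hY => (hd Y (hsub Y hY).1).hasFDerivWithinAt)
    (fun Y hY => by
      have h1 := hL.dist_le_mul Y (hsub Y hY).2 0 h0.2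
      rw [dist_eq_norm, dist_eq_norm, sub_zero] at h1
      refine h1.trans (mul_le_mul_of_nonneg_left ?_ L.2)
      rwa [Metric.mem_closedBall, dist_zero_right] at hY)
    (Metric.mem_closedBall_self (norm_nonneg _))
    (by rw [Metric.mem_closedBall, dist_zero_right])
  have hF0 : F 0 = 0 := by
    simp only [hF]
    rw [hdet0, Real.log_one]
  rw [hF0, sub_zero, sub_zero, htr Z, Real.norm_eq_abs] at key
  calc |Real.log (LinearMap.det ((1 + Z : End K) : E K →ₗ[ℝ] E K))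
        - LinearMap.trace ℝ (E K) (Z : E K →ₗ[ℝ] E K)| ≤ L * ‖Z‖ * ‖Z‖ := key
    _ = L * ‖Z‖ ^ 2 := by ring

end Pool.Agent.Helper36.RZ
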