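import Pool.Agent.Helper56.RZ.GoalsC
import Pool.Agent.Helper49.RS.Birkhoff

/-!
Project RZ (MP_f32c9c_an), packet MX: the maximal ergodic inequality for finite measures.
-/

set_option autoImplicit false

open Set Filter Topology MeasureTheory

namespace Pool.Agent.Helper36.RZ

open Pool.Agent.Helper56.RZ
open Pool.Agent.Helper49.RS (gmax gmax_nonneg gmax_mono gmax_ge_sum)

section
variable {α : Type} [MeasurableSpace α] {μ : Measure α} [IsFiniteMeasure μ] {T : α → α}

theorem gmax_meas' (hT : Measurable T) (f : α → ℝ) (hf : Measurable f) (n : ℕ) :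
    Measurable (gmax T f n) := by
  induction n with
  | zero => exact measurable_const
  | succ n ih =>
    show Measurable fun x => max 0 (f x + gmax T f n (T x))
    exact measurable_const.max (hf.add (ih.comp hT))

omit [MeasurableSpace α] in
theorem gmax_bdd' (f : α → ℝ) (C : ℝ) (hC0 : 0 ≤ C) (hC : ∀ x, |f x| ≤ C) (n : ℕ) (x : α) :
    |gmax T f n x| ≤ n * C := by
  induction n generalizing x with
  | zero => simp [gmax]
  | succ n ih =>
    rw [abs_of_nonneg (gmax_nonneg T f (n + 1) x)]
    show max 0 (f x + gmax T f n (T x)) ≤ _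
    have h1 := (abs_le.mp (hC x)).2
    have h2 := (abs_le.mp (ih (T x))).2
    refine max_le (by positivity) ?_
    push_cast; linarith

theorem int_of_bdd' (f : α → ℝ) (hf : Measurable f) (C : ℝ) (hC : ∀ x, |f x| ≤ C) :
    Integrable f μ :=
  Integrable.of_bound hf.aestronglyMeasurable C (Eventually.of_forall fun x => by simpa using hC x)

/-- The maximal ergodic theorem, finite version. -/
theorem maximal_fin' (hT : MeasurePreserving T μ μ) (f : α → ℝ) (hf : Measurable f) (C : ℝ)
    (hC0 : 0 ≤ C) (hC : ∀ x, |f x| ≤ C) (n : ℕ) :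
    0 ≤ ∫ x in {x | 0 < gmax T f (n + 1) x}, f x ∂μ := by
  set E := {x | 0 < gmax T f (n + 1) x} with hE
  have hEm : MeasurableSet E := measurableSet_lt measurable_const (gmax_meas' hT.measurable f hf _)
  have hgm := gmax_meas' hT.measurable f hf (n + 1)
  have hgi : Integrable (gmax T f (n + 1)) μ :=
    int_of_bdd' _ hgm _ (gmax_bdd' (T := T) f C hC0 hC (n + 1))
  have hgTi : Integrable (fun x => gmax T f (n + 1) (T x)) μ :=
    int_of_bdd' _ (hgm.comp hT.measurable) _
      (fun x => gmax_bdd' (T := T) f C hC0 hC (n + 1) (T x))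
  have hfi : Integrable f μ := int_of_bdd' f hf C hC
  have h1 : ∫ x in E, (gmax T f (n + 1) x - gmax T f (n + 1) (T x)) ∂μ ≤ ∫ x in E, f x ∂μ := by
    refine setIntegral_mono_on (hgi.sub hgTi).integrableOn hfi.integrableOn hEm fun x hx => ?_
    have h2 : 0 < gmax T f (n + 1) x := hx
    have h3 : gmax T f (n + 1) x = f x + gmax T f n (T x) := by
      change 0 < max 0 (f x + gmax T f n (T x)) at h2
      show max 0 (f x + gmax T f n (T x)) = _
      rcases max_choice 0 (f x + gmax T f n (T x)) with h | h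
      · rw [h] at h2; exact absurd h2 (lt_irrefl _)
      · exact h
    have h4 := gmax_mono T f n (T x)
    linarith
  have h5 : ∫ x in E, gmax T f (n + 1) x ∂μ = ∫ x, gmax T f (n + 1) x ∂μ := by
    refine setIntegral_eq_integral_of_forall_compl_eq_zero fun x hx => ?_
    have h6 : ¬ 0 < gmax T f (n + 1) x := hx
    exact le_antisymm (not_lt.mp h6) (gmax_nonneg T f _ x)
  have h7 : ∫ x in E, gmax T f (n + 1) (T x) ∂μ ≤ ∫ x, gmax T f (n + 1) (T x) ∂μ :=
    setIntegral_le_integral hgTi (Eventually.of_forall fun x => gmax_nonneg T f _ (T x))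
  have h8 : ∫ x, gmax T f (n + 1) (T x) ∂μ = ∫ x, gmax T f (n + 1) x ∂μ := by
    have := integral_map (μ := μ) hT.measurable.aemeasurable (f := gmax T f (n + 1))
      (by rw [hT.map_eq]; exact hgm.aestronglyMeasurable)
    rw [hT.map_eq] at this
    exact this.symm
  rw [integral_sub hgi.integrableOn hgTi.integrableOn] at h1
  linarith

end

theorem mx : StmtMX := by
  intro X _ μ _ F g B hF hg hg0 hgB l hl
  rcases isEmpty_or_nonempty X with hX | ⟨⟨x0⟩⟩
  · have : μ {x | ∃ n : ℕ, 1 ≤ n ∧ l * n < ∑ j ∈ Finset.range n, g (F^[j] x)} = 0 := by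
      rw [Set.eq_empty_of_isEmpty {x | ∃ n : ℕ, 1 ≤ n ∧ l * n < ∑ j ∈ Finset.range n, g (F^[j] x)},
        measure_empty]
    rw [this]
    exact zero_le
  have hB0 : 0 ≤ B := (hg0 x0).trans (hgB x0)
  set f : X → ℝ := fun x => g x - l with hf
  have hfm : Measurable f := hg.sub measurable_const
  have hfC : ∀ x, |f x| ≤ B + l := by
    intro x
    rw [abs_le]
    have h1 := hg0 x
    have h2 := hgB x
    constructor
    · simp only [hf]; linarith
    · simp only [hf]; linarith
  set E : ℕ → Set X := fun n => {x | 0 < gmax F f (n + 1) x} with hE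
  have hEm : ∀ n, MeasurableSet (E n) := fun n =>
    measurableSet_lt measurable_const (gmax_meas' hF.measurable f hfm _)
  have hmono : Monotone E := by
    apply monotone_nat_of_le_succ
    intro n x hx
    exact lt_of_lt_of_le hx (gmax_mono F f (n + 1) x)
  have hgi : Integrable g μ := int_of_bdd' g hg B (fun x => by
    rw [abs_of_nonneg (hg0 x)]; exact hgB x)
  have hEn : ∀ n, μ (E n) ≤ ENNReal.ofReal ((∫ x, g x ∂μ) / l) := by
    intro n
    have h1 := maximal_fin' hF f hfm (B + l) (by linarith) hfC n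
    have h2 : ∫ x in E n, f x ∂μ = ∫ x in E n, g x ∂μ - l * μ.real (E n) := by
      simp only [hf]
      rw [integral_sub hgi.integrableOn (integrable_const l).integrableOn, setIntegral_const,
        smul_eq_mul, mul_comm]
    have h3 : ∫ x in E n, g x ∂μ ≤ ∫ x, g x ∂μ :=
      setIntegral_le_integral hgi (Eventually.of_forall hg0)
    have h4 : l * μ.real (E n) ≤ ∫ x, g x ∂μ := by
      have : 0 ≤ ∫ x in E n, f x ∂μ := h1
      linarith
    have h5 : μ.real (E n) ≤ (∫ x, g x ∂μ) / l := by
      rw [le_div_iff₀ hl]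
      linarith
    have h6 : μ (E n) = ENNReal.ofReal (μ.real (E n)) := by
      rw [Measure.real, ENNReal.ofReal_toReal (measure_ne_top μ _)]
    rw [h6]
    exact ENNReal.ofReal_le_ofReal h5
  have hsub : {x | ∃ n : ℕ, 1 ≤ n ∧ l * n < ∑ j ∈ Finset.range n, g (F^[j] x)} ⊆ ⋃ n, E n := by
    rintro x ⟨n, -, hn⟩
    rw [Set.mem_iUnion]
    refine ⟨n, ?_⟩
    have h1 := gmax_ge_sum F f n x
    have h2 : ∑ k ∈ Finset.range n, f (F^[k] x) =
        (∑ j ∈ Finset.range n, g (F^[j] x)) - l * n := by
      simp only [hf]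
      rw [Finset.sum_sub_distrib, Finset.sum_const, Finset.card_range, nsmul_eq_mul, mul_comm]
    have h3 := gmax_mono F f n x
    show 0 < gmax F f (n + 1) x
    linarith
  calc μ {x | ∃ n : ℕ, 1 ≤ n ∧ l * n < ∑ j ∈ Finset.range n, g (F^[j] x)}
      ≤ μ (⋃ n, E n) := measure_mono hsub
    _ = ⨆ n, μ (E n) := hmono.measure_iUnion
    _ ≤ _ := iSup_le hEn

end Pool.Agent.Helper36.RZ
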